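import Pool.Agent.Y163.MW.Base

/-!
# MW-G: purity of the graded pieces of the monodromy filtration
-/

set_option autoImplicit false

open Module

namespace Pool.Agent.Y48.MW

open Pool.Agent.Y143 Pool.Agent.Y163.MW

universe u v

section

variable {K : Type u} [Field K] {V : Type v} [AddCommGroup V] [Module K V]

/-- projection on a subspace, zero on a disjoint one -/
lemma exists_proj {p q : Submodule K V} (h : Disjoint p q) : ∃ π : V →ₗ[K] V,
    (∀ x, π x ∈ p) ∧ (∀ x ∈ p, π x = x) ∧ ∀ x ∈ q, π x = 0 := by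
  obtain ⟨r, hr⟩ := exists_isCompl (p ⊔ q)
  have h1 : IsCompl p (q ⊔ r) := by
    refine ⟨h.disjoint_sup_right_of_disjoint_sup_left hr.disjoint, ?_⟩
    rw [codisjoint_iff, ← sup_assoc]
    exact hr.sup_eq_top
  refine ⟨p.subtype ∘ₗ Submodule.projectionOnto p (q ⊔ r) h1, fun x => ?_, fun x hx => ?_,
    fun x hx => ?_⟩
  · exact (Submodule.projectionOnto p (q ⊔ r) h1 x).2
  · have := Submodule.projectionOnto_apply_left h1 ⟨x, hx⟩
    rw [LinearMap.comp_apply, this]
    rfl
  · have : Submodule.projectionOnto p (q ⊔ r) h1 x = 0 :=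
      (Submodule.projectionOnto_apply_eq_zero_iff h1).2 (Submodule.mem_sup_left hx)
    rw [LinearMap.comp_apply, this, map_zero]

/-- the components -/
lemma exists_comp {W : ℤ → Submodule K V} (h : iSupIndep W) : ∃ π : ℤ → V →ₗ[K] V,
    (∀ c x, π c x ∈ W c) ∧ (∀ c, ∀ x ∈ W c, π c x = x) ∧
      ∀ c d, d ≠ c → ∀ x ∈ W d, π c x = 0 := by
  have h1 := fun c => exists_proj (h c)
  choose π h2 h3 h4 using h1
  refine ⟨π, h2, h3, fun c d hd x hx => h4 c x ?_⟩
  exact Submodule.mem_iSup_of_mem d (Submodule.mem_iSup_of_mem hd hx)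

lemma comm_of {W : ℤ → Submodule K V} {π : ℤ → V →ₗ[K] V} (h2 : ∀ c, ∀ x ∈ W c, π c x = x)
    (h3 : ∀ c d, d ≠ c → ∀ x ∈ W d, π c x = 0) (N : Module.End K V) (a : ℤ)
    (hN : ∀ c, ∀ x ∈ W c, N x ∈ W (c - a)) {x : V} (hx : x ∈ ⨆ c, W c) (c : ℤ) :
    N (π c x) = π (c - a) (N x) := by
  induction hx using Submodule.iSup_induction' with
  | mem d x hx =>
    by_cases hd : d = c
    · subst hd
      rw [h2 _ x hx, h2 _ _ (hN _ x hx)]
    · rw [h3 c d hd x hx, h3 (c - a) (d - a) (by omega) _ (hN _ x hx), map_zero]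
  | zero => simp
  | add x y _ _ hx hy => rw [map_add, map_add, hx, hy, map_add, map_add]

lemma pow_mem {W : ℤ → Submodule K V} {N : Module.End K V}
    (hN : ∀ c, ∀ x ∈ W c, N x ∈ W (c - 2)) (a : ℕ) : ∀ c, ∀ x ∈ W c, (N ^ a) x ∈ W (c - 2 * a) := by
  induction a with
  | zero => intro c x hx; simpa using hx
  | succ a ih =>
    intro c x hx
    rw [pow_succ', Module.End.mul_apply]
    have := hN _ _ (ih c x hx)
    rwa [show c - 2 * (a : ℤ) - 2 = c - 2 * ((a + 1 : ℕ) : ℤ) by push_cast; ring] at this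

lemma sup_mem {W : ℤ → Submodule K V} {N : Module.End K V} (a : ℤ)
    (hN : ∀ c, ∀ x ∈ W c, N x ∈ W (c - a)) {x : V} (hx : x ∈ ⨆ c, W c) : N x ∈ ⨆ c, W c := by
  induction hx using Submodule.iSup_induction' with
  | mem d x hx => exact Submodule.mem_iSup_of_mem _ (hN _ x hx)
  | zero => simp
  | add x y _ _ hx hy => rw [map_add]; exact add_mem hx hy

/-- an element of the sum is determined by its components -/
lemma eq_zero_of {W : ℤ → Submodule K V} {π : ℤ → V →ₗ[K] V} (h2 : ∀ c, ∀ x ∈ W c, π c x = x)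
    (h3 : ∀ c d, d ≠ c → ∀ x ∈ W d, π c x = 0) (hfin : {c | W c ≠ ⊥}.Finite)
    {x : V} (hx : x ∈ ⨆ c, W c) (h0 : ∀ c, W c ≠ ⊥ → π c x = 0) : x = 0 := by
  have key : ∀ y, y ∈ ⨆ c, W c → y = ∑ c ∈ hfin.toFinset, π c y := by
    intro y hy
    induction hy using Submodule.iSup_induction' with
    | mem d y hy =>
      by_cases hd : W d = ⊥
      · rw [hd, Submodule.mem_bot] at hy
        simp [hy]
      · rw [Finset.sum_eq_single d]
        · exact (h2 d y hy).symm
        · intro c _ hc
          exact h3 c d (Ne.symm hc) y hy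
        · intro h
          exact absurd (hfin.mem_toFinset.2 hd) h
    | zero => simp
    | add x y _ _ hx hy =>
      simp only [map_add]
      rw [Finset.sum_add_distrib, ← hx, ← hy]
  rw [key x hx]
  refine Finset.sum_eq_zero fun c hc => h0 c ?_
  exact hfin.mem_toFinset.1 hc

end

theorem t_G : StG.{u, v} := by
  intro K _ _ V _ _ _ S W F N q P hS hW hF hN hq hNF hP hPu
  obtain ⟨π, p1, p2, p3⟩ := exists_comp hW
  subst hS
  have hfin : {c | W c ≠ ⊥}.Finite := WellFoundedGT.finite_ne_bot_of_iSupIndep hW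
  have hF' : ∀ c, ∀ x ∈ W c, F x ∈ W (c - 0) := fun c x hx => by
    rw [sub_zero]
    exact hF c x hx
  have cN : ∀ x ∈ ⨆ c, W c, ∀ (a : ℕ) (c : ℤ), (N ^ a) (π c x) = π (c - 2 * a) ((N ^ a) x) :=
    fun x hx a c => comm_of p2 p3 (N ^ a) (2 * a) (pow_mem hN a) hx c
  have cF : ∀ x ∈ ⨆ c, W c, ∀ c : ℤ, F (π c x) = π c (F x) := fun x hx c => by
    have := comm_of p2 p3 F 0 hF' hx c
    rwa [sub_zero] at this
  have mF : ∀ x ∈ ⨆ c, W c, F x ∈ ⨆ c, W c := fun x hx => sup_mem 0 hF' hx
  have mN : ∀ x ∈ ⨆ c, W c, N x ∈ ⨆ c, W c := fun x hx => sup_mem 2 hN hx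
  have leS : ∀ c, W c ≤ ⨆ c, W c := fun c => le_iSup W c
  constructor
  · rintro ⟨M, hM, hMP⟩
    have FM : ∀ s x, x ∈ M s → F x ∈ M s := fun s x hx => hM.functorial hM F mF hq hNF s hx
    -- the claim
    have claim : ∀ s c : ℤ, s ≠ c → M s ⊓ W c ≤ M (s - 1) := by
      intro s c hsc
      by_contra hcon
      set A : Submodule K V := M s ⊓ W c with hA
      set B : Submodule K V := M (s - 1) ⊓ W c with hB
      have FA : ∀ x ∈ A, F x ∈ A := fun x hx => ⟨FM s x hx.1, hF c x hx.2⟩
      have FB : ∀ x ∈ B, F x ∈ B := fun x hx => ⟨FM _ x hx.1, hF c x hx.2⟩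
      let f : Module.End K A := F.restrict FA
      let B' : Submodule K A := B.comap A.subtype
      have hfB : B' ≤ B'.comap f := by
        intro x hx
        exact FB _ hx
      have hnt : B' ≠ ⊤ := by
        intro h
        apply hcon
        intro x hx
        have : (⟨x, hx⟩ : A) ∈ B' := by rw [h]; trivial
        exact this.1
      haveI : Nontrivial (A ⧸ B') := Submodule.Quotient.nontrivial_iff.2 hnt
      obtain ⟨α, hα⟩ := Module.End.exists_eigenvalue (B'.mapQ B' f hfB)
      obtain ⟨v, hv⟩ := hα.exists_hasEigenvector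
      obtain ⟨y, rfl⟩ := Submodule.mkQ_surjective B' v
      have hy1 : (y : V) ∉ B := by
        intro h
        apply hv.2
        rw [Submodule.mkQ_apply, Submodule.Quotient.mk_eq_zero]
        exact h
      have hy2 : F y - α • (y : V) ∈ B := by
        have h1 := hv.apply_eq_smul
        rw [Submodule.mkQ_apply, Submodule.mapQ_apply, ← Submodule.Quotient.mk_smul,
          Submodule.Quotient.eq] at h1
        exact h1
      have hyA : (y : V) ∈ A := y.2
      have hPs : P s α := hMP s α y hyA.1 (fun h => hy1 ⟨h, hyA.2⟩) hy2.1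
      -- an eigenvector in `W c`
      have hex : ∃ x ∈ W c, x ≠ 0 ∧ F x = α • x := by
        by_contra hno
        push Not at hno
        have GB : ∀ x ∈ B, (F - α • LinearMap.id : Module.End K V) x ∈ B := fun x hx =>
          sub_mem (FB x hx) (B.smul_mem α hx)
        let g : Module.End K B := (F - α • LinearMap.id : Module.End K V).restrict GB
        have hg : Function.Injective g := by
          rw [← LinearMap.ker_eq_bot, LinearMap.ker_eq_bot']
          intro x hx
          by_contra hx0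
          have h1 : F (x : V) - α • (x : V) = 0 := congrArg Subtype.val hx
          exact hno x x.2.2 (fun h => hx0 (Subtype.ext h)) (sub_eq_zero.1 h1)
        obtain ⟨z, hz⟩ := (LinearMap.injective_iff_surjective.1 hg) ⟨_, hy2⟩
        have h1 : F (z : V) - α • (z : V) = F y - α • (y : V) := congrArg Subtype.val hz
        have h2 : (y : V) - z = 0 := by
          by_contra hne
          refine hno _ (sub_mem hyA.2 z.2.2) hne ?_
          rw [map_sub, smul_sub]
          have h3 : F (y : V) - F (z : V) - (α • (y : V) - α • (z : V)) =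
              (F y - α • (y : V)) - (F (z : V) - α • (z : V)) := by abel
          rw [← sub_eq_zero, h3, h1, sub_self]
        exact hy1 ((sub_eq_zero.1 h2) ▸ z.2)
      obtain ⟨x, hx1, hx2, hx3⟩ := hex
      exact hsc (hPu s c α hPs (hP c α x hx1 hx2 hx3))
    have up : ∀ c, W c ≤ M c := by
      intro c
      obtain ⟨b, hb⟩ := hM.top
      have key : ∀ n : ℕ, W c ≤ M (c + n) → W c ≤ M c := by
        intro n
        induction n with
        | zero => intro h; simpa using h
        | succ n ih =>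
          intro h
          apply ih
          have h1 := claim (c + (n + 1 : ℕ)) c (by push_cast; omega)
          rw [show c + ((n + 1 : ℕ) : ℤ) - 1 = c + n by push_cast; ring] at h1
          exact (le_inf h le_rfl).trans h1
      apply key (b - c).toNat
      refine (leS c).trans ?_
      rw [← hb]
      apply hM.mono
      have := Int.self_le_toNat (b - c)
      omega
    have down : ∀ c, M (c - 1) ⊓ W c = ⊥ := by
      intro c
      obtain ⟨b, hb⟩ := hM.bot
      have key : ∀ n : ℕ, M (c - 1) ⊓ W c ≤ M (c - 1 - n) := by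
        intro n
        induction n with
        | zero => simpa using inf_le_left
        | succ n ih =>
          have h1 := claim (c - 1 - n) c (by omega)
          rw [show c - 1 - (n : ℤ) - 1 = c - 1 - ((n + 1 : ℕ) : ℤ) by push_cast; ring] at h1
          exact (le_inf ih inf_le_right).trans h1
      rw [eq_bot_iff, ← hb]
      refine (key (c - 1 - b).toNat).trans (hM.mono ?_)
      have := Int.self_le_toNat (c - 1 - b)
      omega
    intro a
    constructor
    · intro x hx h0
      have h1 := hM.inj a x (up _ hx) (by rw [h0]; exact zero_mem _)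
      have h2 : x ∈ M (a - 1) ⊓ W a := ⟨h1, hx⟩
      rwa [down, Submodule.mem_bot] at h2
    · intro y hy
      obtain ⟨x, hx, hxy⟩ := hM.surj_exact a y (up _ hy)
      refine ⟨π a x, p1 _ _, ?_⟩
      rw [cN x (hM.le _ hx) a a, hxy, show (a : ℤ) - 2 * a = -a by ring, p2 _ y hy]
  · intro hC
    -- the filtration
    let M : ℤ → Submodule K V := fun s => (⨆ c, W c) ⊓ ⨅ c : {c : ℤ // s < c}, LinearMap.ker (π c)
    have mem : ∀ s x, x ∈ M s ↔ x ∈ (⨆ c, W c) ∧ ∀ c, s < c → π c x = 0 := by
      intro s x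
      rw [Submodule.mem_inf, Submodule.mem_iInf]
      simp only [LinearMap.mem_ker, Subtype.forall]
    have zer : ∀ c x, W c = ⊥ → π c x = 0 := fun c x h => by
      have := p1 c x
      rwa [h, Submodule.mem_bot] at this
    have wm : ∀ a : ℤ, ∀ x ∈ W a, x ∈ M a := fun a x hx =>
      (mem a x).2 ⟨leS a hx, fun c hc => p3 c a (by omega) x hx⟩
    refine ⟨M, ⟨?_, ?_, ?_, ?_, ?_, ?_, ?_⟩, ?_⟩
    · intro a b hab x hx
      rw [mem] at hx ⊢
      exact ⟨hx.1, fun c hc => hx.2 c (lt_of_le_of_lt hab hc)⟩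
    · obtain ⟨b, hb⟩ := hfin.bddBelow
      refine ⟨b - 1, ?_⟩
      rw [eq_bot_iff]
      intro x hx
      rw [mem] at hx
      rw [Submodule.mem_bot]
      refine eq_zero_of p2 p3 hfin hx.1 fun c hc => hx.2 c ?_
      have := hb hc
      omega
    · obtain ⟨b, hb⟩ := hfin.bddAbove
      refine ⟨b, ?_⟩
      apply le_antisymm
      · exact fun x hx => ((mem b x).1 hx).1
      · intro x hx
        rw [mem]
        refine ⟨hx, fun c hc => zer c x ?_⟩
        by_contra hne
        have := hb hne
        omega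
    · exact fun s x hx => ((mem s x).1 hx).1
    · intro s x hx
      rw [mem] at hx ⊢
      refine ⟨mN x hx.1, fun c hc => ?_⟩
      have h1 := cN x hx.1 1 (c + 2)
      rw [pow_one, show c + 2 - 2 * ((1 : ℕ) : ℤ) = c by push_cast; ring, hx.2 (c + 2) (by omega),
        map_zero] at h1
      exact h1.symm
    · intro a x hx h1
      rw [mem] at hx h1 ⊢
      refine ⟨hx.1, fun c hc => ?_⟩
      by_cases hca : c = a
      · subst hca
        apply (hC a).1 _ (p1 _ _)
        rw [cN x hx.1 a a, show (a : ℤ) - 2 * a = -a by ring]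
        exact h1.2 (-a) (by omega)
      · exact hx.2 c (by omega)
    · intro a y hy
      rw [mem] at hy
      obtain ⟨x, hx, hxy⟩ := (hC a).2 (π (-(a : ℤ)) y) (p1 _ _)
      refine ⟨x, wm _ x hx, ?_⟩
      rw [mem]
      have h1 : (N ^ a) x ∈ W (-(a : ℤ)) := by rw [hxy]; exact p1 _ _
      refine ⟨sub_mem hy.1 (leS _ h1), fun c hc => ?_⟩
      rw [map_sub]
      by_cases hca : c = -(a : ℤ)
      · subst hca
        rw [p2 _ _ h1, hxy, sub_self]
      · rw [hy.2 c (by omega), p3 c (-(a : ℤ)) (Ne.symm hca) _ h1, sub_self]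
    · intro s α x hx hx1 hx2
      rw [mem] at hx hx1 hx2
      have h1 : π s x ≠ 0 := by
        intro h0
        apply hx1
        refine ⟨hx.1, fun c hc => ?_⟩
        by_cases hcs : c = s
        · rw [hcs]
          exact h0
        · exact hx.2 c (by omega)
      refine hP s α (π s x) (p1 _ _) h1 ?_
      have h2 := hx2.2 s (by omega)
      rw [map_sub, map_smul, sub_eq_zero] at h2
      rw [cF x hx.1 s, h2]

end Pool.Agent.Y48.MW
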